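import Mathlib
import Pool.Agent.Lib.MP_b58525_ag.Build

set_option autoImplicit false

open Polynomial

namespace Pool.Agent.Results.MP_b58525_ag.HeightOneAssociated

open Pool.Agent.Lib.MP_b58525_ag

/-- The normalization `Rⁿ` of a domain `R`: the integral closure of `R` in its fraction field. -/
noncomputable def normalization (R : Type) [CommRing R] [IsDomain R] :
    Subalgebra R (FractionRing R) :=
  integralClosure R (FractionRing R)

/-- The image of `R` in its normalization, as an `R`-submodule. -/
noncomputable def baseImage (R : Type) [CommRing R] [IsDomain R] :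
    Submodule R (normalization R) :=
  LinearMap.range (Algebra.linearMap R (normalization R))

/-- The `R`-module `Rⁿ / R`. -/
abbrev NormalizationQuotient (R : Type) [CommRing R] [IsDomain R] : Type :=
  normalization R ⧸ baseImage R

/-- `p` is the annihilator of some element of the `R`-module `Rⁿ / R`. -/
def IsAnnihilatorInQuotient (R : Type) [CommRing R] [IsDomain R] (p : Ideal R) : Prop :=
  ∃ m : NormalizationQuotient R, ∀ r : R, r ∈ p ↔ r • m = 0

/-- For every `d ≥ 1` there is a Noetherian integral domain `R` of Krull dimension `d` such that
every prime ideal `p` of `R` of height one is an associated prime of the `R`-module `Rⁿ / R`,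
where `Rⁿ` is the integral closure of `R` in its fraction field: there is an element `m` of
`Rⁿ / R` with `p = Ann_R(m)`. -/
theorem result : ∀ d : ℕ, 1 ≤ d →
    ∃ (R : Type) (_ : CommRing R) (_ : IsDomain R),
      IsNoetherianRing R ∧ ringKrullDim R = d ∧
      ∀ p : Ideal R, p.IsPrime → p.height = 1 → IsAnnihilatorInQuotient R p := by
  intro d hd
  obtain ⟨M, hM, hht⟩ := exists_isMaximal_height d
  have hdimP : ringKrullDim (Localization.AtPrime M) = d := by
    rw [IsLocalization.AtPrime.ringKrullDim_eq_height M (Localization.AtPrime M), hht]
    rfl
  have := countable_mvPolynomial d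
  have : Countable (Localization.AtPrime M) := countable_localization _ _
  have := countable_polynomial (Localization.AtPrime M)
  have : CharP (Localization.AtPrime M) 2 := by
    have hinj : Function.Injective
        (algebraMap (MvPolynomial (Fin d) (ZMod 2)) (Localization.AtPrime M)) :=
      IsLocalization.injective _ M.primeCompl_le_nonZeroDivisors
    exact charP_of_injective_ringHom hinj 2
  have hnf : IsLocalRing.maximalIdeal (Localization.AtPrime M) ≠ ⊥ := by
    intro h
    have h1 : IsField (Localization.AtPrime M) := IsLocalRing.isField_iff_maximalIdeal_eq.mpr h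
    have h2 : ringKrullDim (Localization.AtPrime M) = 0 := ringKrullDim_eq_zero_of_isField h1
    rw [hdimP] at h2
    have : d = 0 := by exact_mod_cast h2
    omega
  obtain ⟨D⟩ := exists_datum hnf
  refine ⟨D.R, inferInstance, inferInstance, D.isNoetherianRing_R, ?_, ?_⟩
  · rw [D.ringKrullDim_R, hdimP]
  · exact D.exists_annihilator_eq

end Pool.Agent.Results.MP_b58525_ag.HeightOneAssociated
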